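import Pool.Agent.Helper33.PS.Defs

/-!
# Plan S, module M5a: the gain near the diagonal
-/

set_option autoImplicit false

open Finset

namespace Pool.Agent.Helper11.PS

open Pool.Agent.Helper33

/-- the cut: `max (0, a + b - (m - 1))` -/
def cc (m a b : ℕ) : ℕ := a + b + 1 - m

/-- the coefficients of `x ^ a y ^ c (y - x) ^ (b - c)`, `c = cc m a b` -/
def tt (K : Type*) [Field K] (m a b p q : ℕ) : K :=
  if cc m a b ≤ q ∧ q ≤ b ∧ p + q = a + b then
    (-1) ^ (b - q) * ((b - cc m a b).choose (q - cc m a b) : K) else 0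

lemma sum_tt {K : Type*} [Field K] (m a b : ℕ) (ha : a < m) (hb : b < m) (x y : K) :
    ∑ q ∈ range m, ∑ p ∈ range m, x ^ p * y ^ q * tt K m a b p q =
      x ^ a * y ^ cc m a b * (y - x) ^ (b - cc m a b) := by
  have hc : cc m a b ≤ b := by unfold cc; omega
  have h1 : ∀ q ∈ range m, ∑ p ∈ range m, x ^ p * y ^ q * tt K m a b p q =
      if cc m a b ≤ q ∧ q ≤ b then x ^ (a + b - q) * y ^ q *
        ((-1) ^ (b - q) * ((b - cc m a b).choose (q - cc m a b) : K)) else 0 := by
    intro q hq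
    by_cases h : cc m a b ≤ q ∧ q ≤ b
    · rw [if_pos h, Finset.sum_eq_single (a + b - q)]
      · rw [tt, if_pos ⟨h.1, h.2, by omega⟩]
      · intro p _ hp
        rw [tt, if_neg, mul_zero]
        rintro ⟨-, -, h3⟩
        omega
      · intro hp
        exfalso
        apply hp
        rw [mem_range]
        have := h.1
        unfold cc at this
        omega
    · rw [if_neg h]
      apply Finset.sum_eq_zero
      intro p _
      rw [tt, if_neg, mul_zero]
      rintro ⟨h1, h2, -⟩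
      exact h ⟨h1, h2⟩
  rw [Finset.sum_congr rfl h1, ← Finset.sum_filter]
  have h2 : (range m).filter (fun q => cc m a b ≤ q ∧ q ≤ b) = Ico (cc m a b) (b + 1) := by
    ext q
    simp only [mem_filter, mem_range, mem_Ico]
    omega
  rw [h2, Finset.sum_Ico_eq_sum_range]
  have h3 : b + 1 - cc m a b = (b - cc m a b) + 1 := by omega
  rw [h3, sub_eq_add_neg y x, add_pow, Finset.mul_sum]
  apply Finset.sum_congr rfl
  intro j hj
  rw [mem_range] at hj
  have e1 : a + b - (cc m a b + j) = a + (b - cc m a b - j) := by omega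
  have e2 : b - (cc m a b + j) = b - cc m a b - j := by omega
  have e3 : cc m a b + j - cc m a b = j := by omega
  rw [e1, e2, e3, pow_add, pow_add, neg_pow x]
  ring

lemma tt_diag {K : Type*} [Field K] (m a b : ℕ) (ha : a < m) (p : ℕ) :
    tt K m a b p b = if p = a then 1 else 0 := by
  have hc : cc m a b ≤ b := by unfold cc; omega
  unfold tt
  by_cases h : p = a
  · rw [if_pos ⟨hc, le_rfl, by omega⟩, if_pos h]
    simp
  · rw [if_neg, if_neg h]
    rintro ⟨-, -, h3⟩
    omega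

lemma tt_lt {K : Type*} [Field K] (m a b p q : ℕ) (h : b < q) : tt K m a b p q = 0 := by
  unfold tt
  rw [if_neg]
  rintro ⟨-, h2, -⟩
  omega

/-- the change of basis -/
def TM (K : Type*) [Field K] (m : ℕ) : Matrix (Fin m × Fin m) (Fin m × Fin m) K :=
  Matrix.of fun pq ab => tt K m ab.1 ab.2 pq.1 pq.2

lemma det_TM (K : Type*) [Field K] (m : ℕ) : (TM K m).det = 1 := by
  have hT : (TM K m).BlockTriangular (fun pq => pq.2) := by
    intro pq ab h
    exact tt_lt m ab.1 ab.2 pq.1 pq.2 h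
  rw [hT.det_fintype]
  apply Finset.prod_eq_one
  intro k _
  have : (TM K m).toSquareBlock (fun pq => pq.2) k = 1 := by
    ext pq ab
    obtain ⟨⟨p, q⟩, hq⟩ := pq
    obtain ⟨⟨a, b⟩, hb⟩ := ab
    simp only at hq hb
    subst hq
    subst hb
    have e : (TM K m).toSquareBlock (fun pq => pq.2) b ⟨(p, b), rfl⟩ ⟨(a, b), rfl⟩ =
        tt K m a b p b := rfl
    refine e.trans ?_
    rw [tt_diag m a b a.2]
    simp only [Matrix.one_apply, Subtype.mk.injEq, Prod.mk.injEq, and_true, Fin.ext_iff]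
  rw [this, Matrix.det_one]

lemma sum_gain (m : ℕ) : (∑ ab : Fin m × Fin m, ((((ab.2 : ℕ) - cc m ab.1 ab.2 : ℕ)) : ℝ)) =
    (m * (m - 1) * (2 * m - 1) / 6 : ℝ) := by
  rw [Fintype.sum_prod_type_right]
  have h1 : ∀ b : Fin m, (∑ a : Fin m, ((((b : ℕ) - cc m a b : ℕ)) : ℝ)) =
      m * (b : ℝ) - (b : ℝ) * (b + 1) / 2 := by
    intro b
    rw [Fin.sum_univ_eq_sum_range (fun a => ((((b : ℕ) - cc m a b : ℕ)) : ℝ)) m]
    obtain ⟨b, hb⟩ := b
    simp only
    obtain ⟨n, rfl⟩ : ∃ n, m = n + b := ⟨m - b, by omega⟩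
    rw [Finset.sum_range_add]
    have e1 : ∀ a ∈ range n, ((b - cc (n + b) a b : ℕ) : ℝ) = b := by
      intro a ha
      rw [mem_range] at ha
      have : b - cc (n + b) a b = b := by unfold cc; omega
      rw [this]
    have e2 : ∀ j ∈ range b, ((b - cc (n + b) (n + j) b : ℕ) : ℝ) = (b - 1 : ℝ) - j := by
      intro j hj
      rw [mem_range] at hj
      have h3 : cc (n + b) (n + j) b = j + 1 := by unfold cc; omega
      rw [h3, Nat.cast_sub (by omega)]
      push_cast
      ring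
    rw [Finset.sum_congr rfl e1, Finset.sum_congr rfl e2, Finset.sum_sub_distrib,
      Finset.sum_const, Finset.sum_const, card_range, card_range, nsmul_eq_mul, nsmul_eq_mul]
    have e3 : ∀ k : ℕ, ∑ j ∈ range k, (j : ℝ) = k * (k - 1) / 2 := by
      intro k
      induction k with
      | zero => simp
      | succ k ih => rw [Finset.sum_range_succ, ih]; push_cast; ring
    rw [e3]
    push_cast
    ring
  rw [Finset.sum_congr rfl (fun b _ => h1 b)]
  have h2 : ∀ M : ℝ, ∀ n : ℕ, ∑ b ∈ range n, (M * (b : ℝ) - (b : ℝ) * (b + 1) / 2) =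
      M * n * (n - 1) / 2 - (n - 1) * n * (n + 1) / 6 := by
    intro M n
    induction n with
    | zero => simp
    | succ k ih => rw [Finset.sum_range_succ, ih]; push_cast; ring
  rw [Fin.sum_univ_eq_sum_range (fun b => ((m : ℝ) * (b : ℝ) - (b : ℝ) * (b + 1) / 2)) m, h2]
  ring

/-- M5a: the gain near the diagonal -/
theorem det_gain {K : Type*} [Field K] (v : DV K) (m : ℕ) (x y : Fin m × Fin m → K)
    (hx : ∀ i, v.ge 0 (x i)) (hy : ∀ i, v.ge 0 (y i)) (hxy : ∀ i, v.ge 1 (y i - x i)) :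
    v.ge (m * (m - 1) * (2 * m - 1) / 6 : ℝ)
      (Matrix.of fun i (ab : Fin m × Fin m) => x i ^ (ab.1 : ℕ) * y i ^ (ab.2 : ℕ)).det := by
  set M : Matrix (Fin m × Fin m) (Fin m × Fin m) K :=
    Matrix.of fun i (ab : Fin m × Fin m) => x i ^ (ab.1 : ℕ) * y i ^ (ab.2 : ℕ) with hM
  have h1 : M.det = (M * TM K m).det := by
    rw [Matrix.det_mul, det_TM, mul_one]
  have h2 : ∀ i ab, (M * TM K m) i ab =
      x i ^ (ab.1 : ℕ) * y i ^ cc m ab.1 ab.2 * (y i - x i) ^ ((ab.2 : ℕ) - cc m ab.1 ab.2) := by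
    intro i ab
    rw [← sum_tt m ab.1 ab.2 ab.1.2 ab.2.2, Matrix.mul_apply, Fintype.sum_prod_type_right,
      ← Fin.sum_univ_eq_sum_range
        (fun q => ∑ p ∈ range m, x i ^ p * y i ^ q * tt K m ab.1 ab.2 p q) m]
    apply Finset.sum_congr rfl
    intro q _
    rw [← Fin.sum_univ_eq_sum_range (fun p => x i ^ p * y i ^ (q : ℕ) * tt K m ab.1 ab.2 p q) m]
    rfl
  have h3 : ∀ i ab, v.ge (((ab.2 : ℕ) - cc m ab.1 ab.2 : ℕ) : ℝ) ((M * TM K m) i ab) := by
    intro i ab
    rw [h2]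
    have e1 := DV.ge_pow (hx i) (ab.1 : ℕ)
    have e2 := DV.ge_pow (hy i) (cc m ab.1 ab.2)
    have e3 := DV.ge_pow (hxy i) ((ab.2 : ℕ) - cc m ab.1 ab.2)
    refine DV.ge_mono (DV.ge_mul (DV.ge_mul e1 e2) e3) (le_of_eq ?_)
    ring
  rw [h1, Matrix.det_apply, ← sum_gain]
  apply DV.ge_sum
  intro σ _
  have h4 : v.ge (∑ ab : Fin m × Fin m, ((((ab.2 : ℕ) - cc m ab.1 ab.2 : ℕ)) : ℝ))
      (∏ ab, (M * TM K m) (σ ab) ab) := by
    have : ∀ s : Finset (Fin m × Fin m),
        v.ge (∑ ab ∈ s, ((((ab.2 : ℕ) - cc m ab.1 ab.2 : ℕ)) : ℝ))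
          (∏ ab ∈ s, (M * TM K m) (σ ab) ab) := by
      intro s
      induction s using Finset.induction_on with
      | empty => simpa using DV.ge_one
      | insert a s ha ih =>
        rw [Finset.prod_insert ha, Finset.sum_insert ha]
        exact DV.ge_mul (h3 _ _) ih
    exact this univ
  rcases Int.units_eq_one_or (Equiv.Perm.sign σ) with h | h
  · rw [h, one_smul]; exact h4
  · rw [h, Units.neg_smul, one_smul]; exact DV.ge_neg h4

end Pool.Agent.Helper11.PS
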